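import Pool.Agent.Helper85.E5.Var
import Pool.Agent.Helper3.EVC.E14

/-!
# EV4b core: strict log-concavity where the variance is large
-/

set_option autoImplicit false

namespace Pool.Agent.Helper85.E5

open Polynomial EVC

variable {b c T κ : ℝ}

theorem bulk (hA : Adm b c T κ) : ∃ V₀ : ℝ, ∀ (L : ℕ) (P : ℝ[X]), Hyp b c T κ L P →
    ∀ r : ℝ, 0 < r → V₀ ≤ V P r → ∀ k : ℕ, 1 ≤ k → mean P r = k →
      P.coeff (k - 1) * P.coeff (k + 1) < P.coeff k ^ 2 := by
  have hK := K0_pos hA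
  have hκ := hA.hκ
  obtain ⟨θ₂, hθ₂, K, hK1, hlf⟩ := local_form (B := 1 / b) (by
    rw [le_div_iff₀ hA.hb]
    linarith [hA.hb1])
  obtain ⟨V₀, hsad⟩ := saddle' θ₂ (K * (1 + K0 b c T / κ)) 1
    (κ / (κ + K0 b c T) * (1 / 5)) hθ₂ (by positivity) one_pos (by positivity)
  refine ⟨max V₀ 0, fun L P h r hr hV k hk hmean => ?_⟩
  have hPr := h.toNice.eval_pos hr
  have hV0 : 0 ≤ V P r := (le_max_right _ _).trans hV
  refine hsad P h.nn k hk r (V P r) hr ((le_max_left _ _).trans hV) hPr ?_ ?_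
  · intro x hx
    obtain ⟨w, hw1, hw2⟩ := hlf L P h.toNice r hr (fun ρ hρ => norm_p_le hA h hr hρ) x hx
    refine ⟨w, hw1.trans ?_, ?_⟩
    · have h1 := W_le hA h hr
      have h2 : 0 ≤ |x| ^ 3 := by positivity
      calc K * W P r * |x| ^ 3 ≤ K * ((1 + K0 b c T / κ) * V P r) * |x| ^ 3 := by gcongr
        _ = K * (1 + K0 b c T / κ) * V P r * |x| ^ 3 := by ring
    · rw [hw2, hmean]
      congr 2
      push_cast
      ring
  · intro x hx
    refine (dec_V hA h hr hx).trans ?_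
    rw [one_mul]
    refine mul_le_mul_of_nonneg_right (Real.exp_le_exp.2 ?_) hPr.le
    apply neg_le_neg
    have h1 := Helper92.EV.one_sub_cos_lower (abs_nonneg x) hx
    rw [Real.cos_abs, sq_abs] at h1
    have h2 : 1 / 5 * x ^ 2 ≤ 1 - Real.cos x := by linarith
    calc κ / (κ + K0 b c T) * (1 / 5) * V P r * x ^ 2
        = κ / (κ + K0 b c T) * V P r * (1 / 5 * x ^ 2) := by ring
      _ ≤ κ / (κ + K0 b c T) * V P r * (1 - Real.cos x) :=
        mul_le_mul_of_nonneg_left h2 (by positivity)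

end Pool.Agent.Helper85.E5
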