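import Pool.Agent.Helper85.E5.Low2
import Pool.Agent.Helper49.EV.LowCore

/-!
# E5: the mean at large radii
-/

set_option autoImplicit false

namespace Pool.Agent.Helper85.E5

open Polynomial EVC

/-- the number of roots -/
theorem card_Z (P : ℝ[X]) : Multiset.card (Z P) = P.natDegree := by
  unfold Z
  have h1 : Multiset.card (P.map (algebraMap ℝ ℂ)).roots = (P.map (algebraMap ℝ ℂ)).natDegree :=
    IsAlgClosed.card_roots_eq_natDegree
  rw [h1, natDegree_map]

/-- **Large mean at a fixed large radius.** -/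
theorem mean_large {b c T κ : ℝ} (h : Adm b c T κ) {ε : ℝ} (hε : 0 < ε) : ∃ r : ℝ, 1 ≤ r ∧ ∀ (L : ℕ) (P : ℝ[X]),
    Hyp b c T κ L P → P.natDegree - ε * L ≤ mean P r := by
  have hb := h.hb
  have hT := h.hT
  refine ⟨max 1 (T / (b * ε)), le_max_left _ _, ?_⟩
  intro L P hP
  obtain ⟨r, hr⟩ : ∃ r, r = max 1 (T / (b * ε)) := ⟨_, rfl⟩
  rw [← hr]
  have hr1 : 1 ≤ r := by rw [hr]; exact le_max_left _ _
  have hr0 : 0 < r := by linarith
  have hr2 : T / (b * ε) ≤ r := by rw [hr]; exact le_max_right _ _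
  have h1 := congrArg Complex.re (mean_eq hP.toNice hr0)
  rw [Complex.ofReal_re, re_sum_map] at h1
  have h2 : ∀ ρ ∈ Z P, 1 - ε ≤ (p r ρ).re := by
    intro ρ hρ
    have hd := hP.dist ρ hρ r hr0
    have hn := norm_nonneg ρ
    have hpos : 0 < ‖(r : ℂ) - ρ‖ := lt_of_lt_of_le (by positivity) hd
    have hne : (r : ℂ) - ρ ≠ 0 := norm_pos_iff.1 hpos
    have e1 : p r ρ = 1 - (-ρ / ((r : ℂ) - ρ)) := by
      unfold p
      rw [eq_sub_iff_add_eq, ← add_div, ← sub_eq_add_neg, div_self hne]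
    have h3 : ‖-ρ / ((r : ℂ) - ρ)‖ ≤ ε := by
      rw [norm_div, norm_neg, div_le_iff₀ hpos]
      have h4 : ε * (b * (r + ‖ρ‖)) ≤ ε * ‖(r : ℂ) - ρ‖ := mul_le_mul_of_nonneg_left hd hε.le
      refine le_trans ?_ h4
      have h5 : T ≤ r * (b * ε) := by rwa [div_le_iff₀ (by positivity)] at hr2
      have h6 : 0 ≤ ε * (b * ‖ρ‖) := by positivity
      have h7 := hP.far ρ hρ
      nlinarith
    rw [e1, Complex.sub_re, Complex.one_re]
    have h5 := (le_abs_self _).trans ((Complex.abs_re_le_norm _).trans h3)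
    linarith
  have h3 := Multiset.sum_map_le_sum_map _ _ h2
  rw [Multiset.map_const', Multiset.sum_replicate, nsmul_eq_mul, h1, card_Z] at h3
  have h4 : 2 * (P.natDegree : ℝ) ≤ L := by exact_mod_cast hP.deg
  have h5 : (0 : ℝ) ≤ P.natDegree := Nat.cast_nonneg _
  nlinarith

theorem mean_cont {L : ℕ} {P : ℝ[X]} (h : Nice L P) (u v : ℝ) (hu : 0 < u) : ContinuousOn (mean P) (Set.Icc u v) := by
  unfold mean
  refine ContinuousOn.div (by fun_prop) (by fun_prop) ?_
  intro x hx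
  exact (h.eval_pos (lt_of_lt_of_le hu hx.1)).ne'

end Pool.Agent.Helper85.E5
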