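import Pool.Agent.Helper85.E5.Mid
import Pool.Agent.Helper74.EV2.Growth

/-!
# EV4b: the top coefficients
-/

set_option autoImplicit false

namespace Pool.Agent.Helper85.E5

open Polynomial EVC

/-- the kernel at a large radius -/
theorem top_root {r T : ℝ} (hT : 1 ≤ T) (hr : 2 * T ≤ r) {ρ : ℂ} (hρ : ‖ρ‖ ≤ T) :
    ‖(r : ℂ) * (p r ρ * (1 - p r ρ)) - -ρ‖ ≤ 10 * T ^ 2 / r := by
  have hr0 : 0 < r := by linarith
  have h3 : r / 2 ≤ ‖(r : ℂ) - ρ‖ := by
    have := norm_sub_norm_le (r : ℂ) ρ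
    rw [Complex.norm_real, Real.norm_of_nonneg hr0.le] at this
    linarith
  have h4 : (r : ℂ) - ρ ≠ 0 := by
    apply norm_pos_iff.1
    linarith
  have e1 : (r : ℂ) * (p r ρ * (1 - p r ρ)) - -ρ = ρ ^ 2 * (ρ - 2 * (r : ℂ)) / ((r : ℂ) - ρ) ^ 2 := by
    unfold p
    field_simp
    ring
  rw [e1, norm_div, norm_mul, norm_pow, norm_pow]
  have h5 : ‖ρ - 2 * (r : ℂ)‖ ≤ 5 / 2 * r := by
    refine (norm_sub_le _ _).trans ?_
    rw [norm_mul, Complex.norm_real, Real.norm_of_nonneg hr0.le, Complex.norm_ofNat]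
    linarith
  rw [div_le_div_iff₀ (by positivity) (by positivity)]
  have h6 : r ^ 2 / 4 ≤ ‖(r : ℂ) - ρ‖ ^ 2 := by
    have := pow_le_pow_left₀ (by positivity) h3 2
    rw [div_pow] at this
    norm_num at this
    exact this
  have h7 : ‖ρ‖ ^ 2 ≤ T ^ 2 := pow_le_pow_left₀ (norm_nonneg _) hρ 2
  calc ‖ρ‖ ^ 2 * ‖ρ - 2 * (r : ℂ)‖ * r ≤ T ^ 2 * (5 / 2 * r) * r := by gcongr
    _ = 10 * T ^ 2 * (r ^ 2 / 4) := by ring
    _ ≤ _ := by gcongr

/-- **The second coefficient from the top is linear.** -/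
theorem sum_neg_ge {b c T κ : ℝ} (h : Adm b c T κ) {L : ℕ} {P : ℝ[X]} (hP : Hyp b c T κ L P)
    (hV : ∀ r : ℝ, 0 < r → κ * L * wt r ≤ V P r) : κ / 8 * L ≤ ((Z P).map fun ρ => (-ρ).re).sum := by
  have hT := h.hT
  have hκ := h.hκ
  obtain ⟨r, hr⟩ : ∃ r, r = 40 * T ^ 2 / κ := ⟨_, rfl⟩
  have hr40 : 40 * T ^ 2 ≤ r := by
    rw [hr, le_div_iff₀ hκ]
    have := h.hκ1
    nlinarith [sq_nonneg T]
  have hT2 : T ≤ T ^ 2 := by nlinarith
  have hr0 : 0 < r := by nlinarith
  have hr1 : 1 ≤ r := by nlinarith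
  have hV1 := hV r hr0
  have e1 : V P r = ((Z P).map fun ρ => (p r ρ * (1 - p r ρ)).re).sum := by
    unfold V
    exact re_sum_map _ _
  have h1 : ∀ ρ ∈ Z P, r * (p r ρ * (1 - p r ρ)).re ≤ (-ρ).re + 10 * T ^ 2 / r := by
    intro ρ hρ
    have h2 := top_root hT (r := r) (by nlinarith) (hP.far ρ hρ)
    have h3 := (le_abs_self _).trans ((Complex.abs_re_le_norm _).trans h2)
    rw [Complex.sub_re, Complex.re_ofReal_mul] at h3
    linarith
  have h2 := Multiset.sum_map_le_sum_map _ _ h1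
  rw [Multiset.sum_map_mul_left, Multiset.sum_map_add, Multiset.map_const', Multiset.sum_replicate, nsmul_eq_mul,
    ← e1] at h2
  have h3 := card_Z_le hP.toNice
  have h4 : (Multiset.card (Z P) : ℝ) * (10 * T ^ 2 / r) ≤ (L : ℝ) / 2 * (10 * T ^ 2 / r) :=
    mul_le_mul_of_nonneg_right (by linarith) (by positivity)
  have h5 : 10 * T ^ 2 / r = κ / 4 := by
    rw [hr]
    field_simp
    norm_num
  have h6 : 1 / 4 ≤ r * wt r := by
    unfold wt
    rw [← mul_div_assoc, div_le_div_iff₀ (by norm_num) (by positivity)]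
    nlinarith
  have h7 : κ * L * (1 / 4) ≤ κ * L * (r * wt r) := mul_le_mul_of_nonneg_left h6 (by positivity)
  have h8 : r * (κ * L * wt r) ≤ r * V P r := mul_le_mul_of_nonneg_left hV1 hr0.le
  rw [h5] at h4 h2
  have h9 : κ * L * (r * wt r) = r * (κ * L * wt r) := by ring
  linarith

/-- the share of the top coefficients -/
noncomputable def dtop (T κ : ℝ) : ℝ := (κ / 4) ^ 2 / (32 * T ^ 2) * (κ / (8 * T))

theorem dtop_pos {b c T κ : ℝ} (h : Adm b c T κ) : 0 < dtop T κ := by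
  have := h.hκ
  have : 0 < T := by linarith [h.hT]
  unfold dtop
  positivity

/-- **Top coefficients.** -/
theorem top4 {b c T κ : ℝ} (h : Adm b c T κ) {L : ℕ} (hL : 1 ≤ L) {P : ℝ[X]} (hP : Hyp b c T κ L P)
    (hV : ∀ r : ℝ, 0 < r → κ * L * wt r ≤ V P r) (k : ℕ) (hk : (P.natDegree : ℝ) ≤ k + dtop T κ * L) :
    P.coeff (k - 1) * P.coeff (k + 1) ≤ P.coeff k ^ 2 := by
  have hT := h.hT
  have hκ := h.hκ
  have hL0 : (0 : ℝ) < L := by exact_mod_cast hL
  have h1 := sum_neg_ge h hP hV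
  have h0 : P ≠ 0 := by
    rintro rfl
    have := hP.one
    simp at this
    linarith
  have hlead : 0 < P.leadingCoeff := lt_of_le_of_ne (hP.nn _) (Ne.symm (leadingCoeff_ne_zero.2 h0))
  -- the degree is linear
  have h2 : ((Z P).map fun ρ => (-ρ).re).sum ≤ P.natDegree * T := by
    have h3 : ∀ ρ ∈ Z P, (-ρ).re ≤ T := fun ρ hρ => by
      have h4 := (le_abs_self _).trans (Complex.abs_re_le_norm (-ρ))
      rw [norm_neg] at h4
      exact h4.trans (hP.far ρ hρ)
    have h4 := Multiset.sum_map_le_sum_map _ _ h3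
    rw [Multiset.map_const', Multiset.sum_replicate, nsmul_eq_mul, card_Z] at h4
    exact h4
  have hd1 : κ / (8 * T) * L ≤ P.natDegree := by
    rw [div_mul_eq_mul_div, div_le_iff₀ (by positivity)]
    nlinarith
  have hd0 : (0 : ℝ) < P.natDegree := lt_of_lt_of_le (by positivity) hd1
  have hd : 1 ≤ P.natDegree := by
    have : 0 < P.natDegree := by exact_mod_cast hd0
    omega
  have h3 := Pool.Agent.Helper74.EV2.second_coeff (P := P) hd
  have h4 : P.coeff (P.natDegree - 1) = P.leadingCoeff * ((Z P).map fun ρ => (-ρ).re).sum := by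
    have h5 := congrArg Complex.re h3
    rw [Complex.ofReal_re, Complex.neg_re, Complex.re_ofReal_mul] at h5
    have h6 : ((Pool.Agent.Helper74.EV2.rts P).sum).re = -((Z P).map fun ρ => (-ρ).re).sum := by
      have h7 := re_sum_map (Z P) (fun ρ => ρ)
      rw [Multiset.map_id'] at h7
      have h8 : ((Z P).map fun ρ => (-ρ).re) = ((Z P).map fun ρ => -(ρ.re)) := by
        refine Multiset.map_congr rfl fun ρ _ => ?_
        rw [Complex.neg_re]
      have h9 : ∀ s : Multiset ℂ, (s.map fun ρ => -(ρ.re)).sum = -(s.map fun ρ => ρ.re).sum := by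
        intro s
        induction s using Multiset.induction_on with
        | empty => simp
        | cons a s ih =>
          rw [Multiset.map_cons, Multiset.sum_cons, ih, Multiset.map_cons, Multiset.sum_cons, neg_add]
      rw [h8, h9, neg_neg]
      exact h7
    rw [h5, h6]
    ring
  refine Pool.Agent.Helper74.EV2.top_of_roots (T := T) (c := κ / 4) hT (by positivity) (by linarith [h.hκ1]) P hlead
    (fun z hz => hP.far z hz) ?_ k ?_
  · rw [h4]
    have h5 : 2 * (P.natDegree : ℝ) ≤ L := by exact_mod_cast hP.deg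
    calc κ / 4 * P.natDegree * P.leadingCoeff = P.leadingCoeff * (κ / 4 * P.natDegree) := by ring
      _ ≤ P.leadingCoeff * (κ / 8 * L) := by
        refine mul_le_mul_of_nonneg_left ?_ hlead.le
        nlinarith
      _ ≤ _ := mul_le_mul_of_nonneg_left h1 hlead.le
  · refine hk.trans ?_
    have h5 : dtop T κ * L ≤ (κ / 4) ^ 2 / (32 * T ^ 2) * P.natDegree := by
      unfold dtop
      rw [mul_assoc]
      exact mul_le_mul_of_nonneg_left hd1 (by positivity)
    linarith

end Pool.Agent.Helper85.E5
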