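import Pool.Agent.Helper85.E5.MidLow
import Pool.Agent.Helper85.E5.Bulk
import Pool.Agent.Helper85.E5.Mid
import Pool.Agent.Helper85.E5.TopEnd

/-!
# E5: the core, without a bound of `P(1)`
-/

set_option autoImplicit false

namespace Pool.Agent.Helper85.E5

open Polynomial EVC

theorem mean_cont0 {L : ℕ} {P : ℝ[X]} (h : Nice L P) (v : ℝ) : ContinuousOn (mean P) (Set.Icc 0 v) := by
  unfold mean
  refine ContinuousOn.div (by fun_prop) (by fun_prop) ?_
  intro x hx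
  rcases hx.1.eq_or_lt with h0 | h0
  · rw [← h0]
    have h1 := h.one
    rw [← Polynomial.coeff_zero_eq_eval_zero]
    intro h2
    rw [h2] at h1
    linarith
  · exact (h.eval_pos h0).ne'

/-- **The core.** -/
theorem core5 (b c T κ : ℝ) (h : Adm b c T κ) : ∃ L₀ : ℕ, ∀ L : ℕ, L₀ ≤ L → ∀ P : ℝ[X], Hyp b c T κ L P →
    ∀ k : ℕ, 1 ≤ k → P.coeff (k - 1) * P.coeff (k + 1) ≤ P.coeff k ^ 2 := by
  have hκ := h.hκ
  obtain ⟨V1, hbulk1⟩ := bulk h
  obtain ⟨V0, hV0⟩ : ∃ V0, V0 = max V1 1 := ⟨_, rfl⟩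
  have hV01 : V1 ≤ V0 := by rw [hV0]; exact le_max_left _ _
  have hV02 : 1 ≤ V0 := by rw [hV0]; exact le_max_right _ _
  have hδ := del_pos h
  have hτ := dtop_pos h
  have hc0 := c0_pos h
  obtain ⟨Rb, hRb1, hlarge⟩ := mean_large h hτ
  obtain ⟨L0, hmid⟩ := mid_low h (V0 := V0) (by linarith)
  obtain ⟨w, hw⟩ : ∃ w, w = (c0 c κ / 2) / (1 + Rb) ^ 2 := ⟨_, rfl⟩
  have hw0 : 0 < w := by rw [hw]; positivity
  obtain ⟨L1, hL1⟩ := exists_nat_ge (V0 / (κ * w))
  refine ⟨max (max L0 L1) 1, fun L hL P hP k hk => ?_⟩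
  have hLa : L0 ≤ L := (le_max_left _ _).trans ((le_max_left _ _).trans hL)
  have hLb : L1 ≤ L := (le_max_right _ _).trans ((le_max_left _ _).trans hL)
  have hLc : 1 ≤ L := (le_max_right _ _).trans hL
  have hLbR : (L1 : ℝ) ≤ L := by exact_mod_cast hLb
  have hV : ∀ r : ℝ, 0 < r → κ * L * wt r ≤ V P r := fun r hr => var_ge h hP hr
  by_cases hk1 : (k : ℝ) + 1 ≤ del c κ * L
  · exact low4 h hP hV k hk hk1
  by_cases hk2 : (P.natDegree : ℝ) ≤ k + dtop T κ * L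
  · exact top4 h hLc hP hV k hk2
  push Not at hk1 hk2
  have h2 := hlarge L P hP
  have hk0 : (1 : ℝ) ≤ k := by exact_mod_cast hk
  have h4 : mean P 0 ≤ k := by
    unfold mean
    rw [zero_mul, zero_div]
    linarith
  have h5 : (k : ℝ) ≤ mean P Rb := by linarith
  obtain ⟨r, hr, hrk⟩ := intermediate_value_Icc (by linarith : (0 : ℝ) ≤ Rb) (mean_cont0 hP.toNice Rb) ⟨h4, h5⟩
  have hr0 : 0 < r := by
    rcases hr.1.eq_or_lt with h0 | h0
    · rw [← h0] at hrk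
      unfold mean at hrk
      rw [zero_mul, zero_div] at hrk
      linarith
    · exact h0
  by_cases hVr : V0 ≤ V P r
  · exact (hbulk1 L P hP r hr0 (hV01.trans hVr) k hk hrk).le
  push Not at hVr
  by_cases hrc : 2 * r ≤ c0 c κ
  · exact hmid L hLa P hP hV r hr0 hrc hVr.le k hk hrk hk1
  push Not at hrc
  exfalso
  have h6 : w ≤ wt r := by
    rw [hw]
    unfold wt
    have h7 : (1 + r) ^ 2 ≤ (1 + Rb) ^ 2 := pow_le_pow_left₀ (by linarith) (by linarith [hr.2]) 2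
    exact div_le_div₀ hr0.le (by linarith) (by positivity) h7
  have h7 : V0 ≤ κ * w * L := by
    have h8 : V0 / (κ * w) ≤ L := hL1.trans hLbR
    rw [div_le_iff₀ (by positivity)] at h8
    linarith
  have h9 : κ * L * w ≤ κ * L * wt r := mul_le_mul_of_nonneg_left h6 (by positivity)
  have h10 := hV r hr0
  linarith

end Pool.Agent.Helper85.E5
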