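import Pool.Agent.Helper57.EV4.Fin
import Pool.Agent.Helper85.E5.Core5
import Pool.Agent.Helper85.EV4.Sel
import Pool.Agent.Helper85.EV4.RowL

/-!
# MP_ea8a26, project E5: plane diagrams whose Seifert circles have few twist regions and whose twist regions carry the degree
-/

set_option autoImplicit false

namespace Pool.Agent.Helper85.E5

open Polynomial Pool.Agent.Helper85.Exp Pool.Agent.Helper60.EV2 Pool.Agent.Helper57.EV Pool.Agent.Helper57.EV2 Pool.Agent.Helper43.Pln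
  Pool.Agent.Helper43.V6 Pool.Agent.Helper57.EV4 Pool.Agent.Helper2.V8B Pool.Agent.Helper85.EV4

/-- **The hypothesis of the core for `half p`**, without a bound of `p(1)`. -/
theorem toHyp5 {p : ℤ[X]} (nn : ∀ k, 0 ≤ p.coeff k) (hpar : ∀ j k, p.coeff j ≠ 0 → p.coeff k ≠ 0 → j % 2 = k % 2) (h0 : p ≠ 0)
    {L : ℕ} (hL : p.natDegree ≤ L) {N κ : ℝ} (hN : 8 ≤ N)
    (zf : ∀ z : ℂ, aeval z p = 0 → (z.re = 0 ∧ |z.im| ≤ 2) ∨ (8 ≤ N * |z.im| ∧ 4 * |z.re| ≤ N * |z.im| ∧ ‖z‖ ≤ N / 2))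
    (dec : ∀ r θ : ℝ, 0 < r → |θ| ≤ Real.pi →
      ‖aeval (EVC.pt r θ) (half p)‖ ≤ Real.exp (-(κ * L * wt r * (1 - Real.cos θ))) * (half p).eval r) :
    Hyp (4 / (N + 4)) (64 / N ^ 2) (N ^ 2) κ L (half p) := by
  have hN0 : 0 < N := by linarith
  -- the alternative for the roots
  have key : ∀ ρ ∈ EVC.Z (half p), (ρ.im = 0 ∧ -4 ≤ ρ.re ∧ ρ.re ≤ 0) ∨
      (64 ≤ N ^ 2 * ‖ρ‖ ∧ (N ^ 2 + 16) * ρ.re ≤ (N ^ 2 - 16) * ‖ρ‖ ∧ ‖ρ‖ ≤ N ^ 2 / 4) := by
    intro ρ hρ
    obtain ⟨z, hz, hz0⟩ := root_half hpar h0 hρ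
    exact sq_alt hz (zf z hz0)
  have hne : ∀ ρ ∈ EVC.Z (half p), ρ ≠ 0 := by
    rintro ρ hρ rfl
    unfold EVC.Z at hρ
    have h2 := (mem_roots'.1 hρ).2
    rw [IsRoot.def, ← coeff_zero_eq_eval_zero, coeff_map] at h2
    have h3 := half_one nn h0
    have h4 : (half p).coeff 0 = 0 := by
      have := h2
      simpa using this
    rw [h4] at h3
    linarith
  refine ⟨⟨half_nn nn, half_one nn h0, ?_⟩, ?_, ?_, ?_, dec⟩
  · have := half_deg h0
    omega
  · intro ρ hρ r hr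
    refine dist_of hN ?_ hr
    rcases key ρ hρ with ⟨h1, -, h2⟩ | ⟨-, h1, -⟩
    · exact Or.inl ⟨h1, h2⟩
    · exact Or.inr h1
  · intro ρ hρ
    rcases key ρ hρ with ⟨h1, h2, h3⟩ | ⟨-, -, h1⟩
    · have h4 : ‖ρ‖ = |ρ.re| := by
        have : ρ = (ρ.re : ℂ) := Complex.ext rfl (by rw [h1]; simp)
        rw [this, Complex.norm_real, Real.norm_eq_abs, Complex.ofReal_re]
      rw [h4, abs_of_nonpos h3]
      nlinarith
    · nlinarith [sq_nonneg N]
  · intro ρ hρ hρc
    rcases key ρ hρ with ⟨h1, -, h3⟩ | ⟨h1, -, -⟩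
    · refine ⟨h1, lt_of_le_of_ne h3 fun h => hne ρ hρ (Complex.ext h h1)⟩
    · exfalso
      rw [lt_div_iff₀ (by positivity)] at hρc
      linarith

/-- **The final theorem from the windows**, with the zero-free region as a hypothesis: `M` windows, of which the degree is at most a multiple. -/
theorem fin5 {N : ℝ} (hN8 : 8 ≤ N) (K : ℕ) : ∃ m₀ : ℕ, ∀ (P : Type) [Fintype P] (G : Sh P), Plane G →
    ∀ nab : Dg G → ℤ[X], Cs nab → Zf nab N → ∀ I M : ℕ, m₀ ≤ I → I ≤ 36 * M → (nab (allPos G)).natDegree ≤ K * I →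
    (∀ z : ℂ, ‖aeval z (nab (allPos G))‖ ≤ Pool.Agent.Helper57.EV4.lam z ^ M * aeval ‖z‖ (nab (allPos G))) → LogConcave G nab := by
  have hK0 : (0 : ℝ) ≤ K := Nat.cast_nonneg K
  obtain ⟨κ, hκ⟩ : ∃ κ : ℝ, κ = 1 / (72 * (K + 1)) := ⟨_, rfl⟩
  have hκ0 : 0 < κ := by rw [hκ]; positivity
  have hκ1 : κ ≤ 1 := by
    rw [hκ, div_le_one (by positivity)]
    linarith
  have hadm : Adm (4 / (N + 4)) (64 / N ^ 2) (N ^ 2) κ := by
    refine ⟨by positivity, ?_, by positivity, ?_, ?_, hκ0, hκ1⟩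
    · rw [div_le_one (by linarith)]
      linarith
    · rw [div_le_one (by positivity)]
      nlinarith
    · nlinarith
  obtain ⟨L₀, hL₀⟩ := core5 _ _ _ _ hadm
  refine ⟨L₀, fun P _ G hG nab hn zf I M hm hIM hdegK h3 k => ?_⟩
  have hne := nonempty_of hG
  obtain ⟨nn, hdeg, hpar⟩ := Pool.Agent.Helper60.PD.nab_nn hG.cross hn
  refine lc_int (fun i => ?_) _ k
  change ∀ k, 0 ≤ (nab (Pool.Agent.Helper43.Pln.allPos G)).coeff k at nn
  by_cases h0 : nab (allPos G) = 0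
  · rw [h0]
    simp
  refine lc_of hpar h0 ?_ i
  have hL1 : L₀ ≤ (K + 1) * I := by
    calc L₀ ≤ I := hm
      _ = 1 * I := (one_mul I).symm
      _ ≤ (K + 1) * I := Nat.mul_le_mul_right I (by omega)
  have hL2 : (nab (allPos G)).natDegree ≤ (K + 1) * I := hdegK.trans (Nat.mul_le_mul_right I (by omega))
  refine hL₀ ((K + 1) * I) hL1 _ (toHyp5 nn hpar h0 hL2 hN8 zf ?_)
  intro r θ hr hθ
  refine dec_half (L := (K + 1) * I) (κ := κ) hpar h0 (fun z _ => ?_) r θ hr hθ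
  refine (h3 z).trans (mul_le_mul_of_nonneg_right ?_ ?_)
  · have h5 : 0 ≤ Pool.Agent.Helper57.EV4.lam z := by unfold Pool.Agent.Helper57.EV4.lam; positivity
    refine (pow_le_pow_left₀ h5 (Pool.Agent.Helper57.EV4.lam_le z) M).trans ?_
    rw [← Real.exp_nat_mul]
    apply Real.exp_le_exp.2
    have h6 : 0 ≤ Pool.Agent.Helper74.EV4.wt (‖z‖ ^ 2) * (1 - Real.cos (2 * z.arg)) := by
      unfold Pool.Agent.Helper74.EV4.wt
      have := Real.cos_le_one (2 * z.arg)
      exact mul_nonneg (by positivity) (by linarith)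
    have h7 : κ * (((K + 1) * I : ℕ) : ℝ) ≤ M / 2 := by
      have h8 : (I : ℝ) ≤ 36 * M := by exact_mod_cast hIM
      push_cast
      rw [hκ]
      have h9 : 1 / (72 * ((K : ℝ) + 1)) * ((K + 1) * I) = I / 72 := by
        field_simp
      rw [h9]
      linarith
    nlinarith [mul_le_mul_of_nonneg_right h7 h6]
  · rw [aeval_eq_sum_range]
    refine Finset.sum_nonneg fun j _ => ?_
    rw [zsmul_eq_mul]
    exact mul_nonneg (by exact_mod_cast nn j) (by positivity)

/-- **The number of Seifert circles is not bounded, nor is the number of crossings in terms of the twist regions.** For all `N` and `K` there is `m₀`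
such that the Conway polynomial of the positive diagram of a plane shape is log-concave when every Seifert circle, with `l` and `r` twist regions on its
two sides, has `l r ≤ N`, when the degree is at most `K` times the number of inner crossings of the twist regions, and when there are at least `m₀` of
these. -/
theorem main_deg (N K : ℕ) : ∃ m₀ : ℕ, ∀ (P : Type) [Fintype P] (G : Sh P), Plane G →
    (∀ e : P, side G (Bigon G) true e * side G (Bigon G) false e ≤ N) →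
    m₀ ≤ inner G → ∀ nab : Dg G → ℤ[X], Cs nab → (nab (allPos G)).natDegree ≤ K * inner G → LogConcave G nab := by
  have hN8 : (8 : ℝ) ≤ 96 * ((N : ℝ) + 2) ^ 2 := by nlinarith [(Nat.cast_nonneg N : (0 : ℝ) ≤ N)]
  obtain ⟨m₀, hm₀⟩ := fin5 hN8 K
  refine ⟨m₀, fun P _ G hG hN hm nab hn hdeg => ?_⟩
  have hne := Pool.Agent.Helper43.Pln.nonempty_of hG
  obtain ⟨M, hM1, hM2⟩ := h3 (G := G) hG.cross
  exact hm₀ P G hG nab hn (fun z hz => zfree_rows hG nab hn hN hz) (inner G) M hm hM1 hdeg (fun z => hM2 nab hn z)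

/-- the hypothesis with the number of crossings -/
theorem main_crossings (N K : ℕ) : ∃ m₀ : ℕ, ∀ (P : Type) [Fintype P] (G : Sh P), Plane G →
    (∀ e : P, side G (Bigon G) true e * side G (Bigon G) false e ≤ N) →
    crossings G ≤ K * inner G → m₀ ≤ crossings G → ∀ nab : Dg G → ℤ[X], Cs nab → LogConcave G nab := by
  obtain ⟨m₀, hm₀⟩ := main_deg N K
  refine ⟨K * m₀ + 1, fun P _ G hG hN hK hm nab hn => ?_⟩
  have hne := nonempty_of hG
  obtain ⟨-, hdeg, -⟩ := Pool.Agent.Helper60.PD.nab_nn hG.cross hn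
  have hcard := card_eq hG.cross
  refine hm₀ P G hG hN ?_ nab hn ?_
  · by_contra h
    push Not at h
    have := Nat.mul_le_mul_left K h.le
    omega
  · have h4 : 2 * (nab (allPos G)).natDegree ≤ Nat.card P := hdeg
    omega

end Pool.Agent.Helper85.E5
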