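import Pool.Agent.Helper85.E5.Low3

/-!
# E5: the first elementary symmetric functions of the far part

`incr'` is `Helper74.EV2.incr` with the lower bound `1 / (4 λ)` of the increments.
-/

set_option autoImplicit false

namespace Pool.Agent.Helper85.E5

open Polynomial EVC Pool.Agent.Helper74.EV4 Pool.Agent.Helper49.ZB Pool.Agent.Helper74.EV2

section

variable {e p : ℕ → ℝ} {lam A T : ℝ}

/-- increments of the quotients, from Newton's identities only -/
theorem incr' (hlam : 0 < lam) (hA : 1 ≤ A) (hT : 1 ≤ T) (he0 : e 0 = 1) (he1 : e 1 = lam)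
    (hp : ∀ m, |p (m + 1)| ≤ A * lam * T ^ (m + 1))
    (hN : ∀ k : ℕ, ((k : ℝ) + 1) * e (k + 1) =
      ∑ i ∈ Finset.range (k + 1), (-1) ^ i * p (i + 1) * e (k - i)) :
    ∀ j : ℕ, 32 * A * T ^ 2 * (j : ℝ) ≤ lam → ∀ s ≤ j, 0 < e s ∧ 0 < e (s + 1) ∧
      1 / (4 * lam) ≤ yq e (s + 1) - yq e s ∧ yq e (s + 1) - yq e s ≤ 2 / lam := by
  have p1 : p 1 = lam := by
    have := hN 0
    simp only [Nat.cast_zero, zero_add, one_mul, Finset.range_one, Finset.sum_singleton, pow_zero,
      Nat.sub_zero, he0, mul_one] at this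
    rw [← this, he1]
  have hAT : 1 ≤ A * T ^ 2 := by
    have h2 : 1 ≤ T ^ 2 := one_le_pow₀ hT
    nlinarith
  intro j
  induction j with
  | zero =>
    intro _ s hs
    obtain rfl : s = 0 := by omega
    change 0 < e 0 ∧ 0 < e (0 + 1) ∧ 1 / (4 * lam) ≤ e 0 / e 1 - 0 ∧ e 0 / e 1 - 0 ≤ 2 / lam
    rw [zero_add, he0, he1, sub_zero]
    refine ⟨one_pos, hlam, ?_, ?_⟩
    · exact div_le_div_of_nonneg_left one_pos.le hlam (by linarith)
    · exact div_le_div_of_nonneg_right (by norm_num) hlam.le
  | succ j ih =>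
    intro hj s hs
    have hj' : 32 * A * T ^ 2 * ((j : ℝ) + 1) ≤ lam := by push_cast at hj; exact hj
    have hj'' : 32 * A * T ^ 2 * (j : ℝ) ≤ lam := by nlinarith
    have IH := ih hj''
    rcases Nat.lt_or_ge s (j + 1) with hs' | hs'
    · exact IH s (by omega)
    obtain rfl : s = j + 1 := by omega
    -- positivity
    have ep : ∀ a, a ≤ j + 1 → 0 < e a := by
      intro a ha
      rcases Nat.lt_or_ge a (j + 1) with h | h
      · exact (IH a (by omega)).1
      · obtain rfl : a = j + 1 := by omega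
        exact (IH j le_rfl).2.1
    -- sums of increments
    have ydiff : ∀ n a, a + n ≤ j + 1 → 0 ≤ yq e (a + n) - yq e a ∧
        yq e (a + n) - yq e a ≤ n * (2 / lam) := by
      intro n
      induction n with
      | zero =>
        intro a _
        simp
      | succ n ihn =>
        intro a ha
        obtain ⟨h1, h2⟩ := ihn a (by omega)
        obtain ⟨-, -, h3', h4⟩ := IH (a + n) (by omega)
        have h3 : 0 ≤ yq e (a + n + 1) - yq e (a + n) := le_trans (by positivity) h3'
        rw [show a + (n + 1) = a + n + 1 by ring]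
        push_cast
        exact ⟨by linarith, by linarith⟩
    obtain ⟨ε, hε⟩ : ∃ ε : ℝ, ε = 1 / (16 * (A * T ^ 2)) := ⟨_, rfl⟩
    have hε0 : 0 < ε := by rw [hε]; positivity
    have hεA : A * T ^ 2 * ε = 1 / 16 := by
      rw [hε]
      field_simp
    have hTε0 : 0 ≤ T * ε := by positivity
    have hTε : T * ε ≤ 1 / 2 := by
      have h1 : T * ε ≤ A * T ^ 2 * ε := by
        refine mul_le_mul_of_nonneg_right ?_ hε0.le
        nlinarith
      linarith
    -- the quotients are small
    have ysm : ∀ a, a ≤ j + 1 → 0 ≤ yq e a ∧ yq e a ≤ ε := by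
      intro a ha
      have h1 := ydiff a 0 (by omega)
      rw [zero_add] at h1
      change 0 ≤ yq e a - 0 ∧ yq e a - 0 ≤ a * (2 / lam) at h1
      rw [sub_zero] at h1
      refine ⟨h1.1, h1.2.trans ?_⟩
      have h2 : (a : ℝ) ≤ (j : ℝ) + 1 := by exact_mod_cast ha
      rw [← mul_div_assoc, div_le_iff₀ hlam]
      have h3 : ε * (32 * A * T ^ 2 * ((j : ℝ) + 1)) ≤ ε * lam :=
        mul_le_mul_of_nonneg_left hj' hε0.le
      have h4 : ε * (32 * A * T ^ 2 * ((j : ℝ) + 1)) = 2 * ((j : ℝ) + 1) := by
        linear_combination (32 * ((j : ℝ) + 1)) * hεA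
      linarith
    -- products of quotients
    have prd : ∀ n a, a + n ≤ j + 1 → e a / e (a + n) ≤ ε ^ n := by
      intro n
      induction n with
      | zero =>
        intro a ha
        rw [add_zero, div_self (ep a (by omega)).ne', pow_zero]
      | succ n ihn =>
        intro a ha
        have h1 := ep a (by omega)
        have h2 := ep (a + n) (by omega)
        have h3 := ep (a + n + 1) (by omega)
        have h4 : e a / e (a + (n + 1)) = e a / e (a + n) * yq e (a + n + 1) := by
          change e a / e (a + n + 1) = e a / e (a + n) * (e (a + n) / e (a + n + 1))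
          field_simp
        rw [h4, pow_succ]
        exact mul_le_mul (ihn a (by omega)) (ysm _ (by omega)).2 (ysm _ (by omega)).1
          (by positivity)
    have ej := ep j (by omega)
    have ej1 := ep (j + 1) le_rfl
    set Y := yq e (j + 1) with hY
    have hYe : Y = e j / e (j + 1) := rfl
    set u1 : ℝ := ((j : ℝ) + 2) * e (j + 2) / e (j + 1) with hu1
    set u0 : ℝ := ((j : ℝ) + 1) * e (j + 1) / e j with hu0
    -- the two identities
    have a1 : u1 = lam + ∑ i ∈ Finset.range (j + 1), (-1) ^ (i + 1) * p (i + 2) *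
        (e (j - i) / e (j + 1)) := by
      have h1 := hN (j + 1)
      rw [Finset.sum_range_succ'] at h1
      push_cast at h1
      rw [hu1, show (j : ℝ) + 2 = (j : ℝ) + 1 + 1 by ring, h1, add_div, Finset.sum_div, add_comm]
      congr 1
      · rw [pow_zero, p1]
        simp only [Nat.sub_zero, one_mul]
        rw [mul_div_assoc, div_self ej1.ne', mul_one]
      · refine Finset.sum_congr rfl fun i hi => ?_
        rw [mul_div_assoc]
    have a0 : u0 = lam + ∑ i ∈ Finset.range (j + 1), (-1) ^ (i + 1) * p (i + 2) *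
        (e (j - i) / e j * yq e (j - i)) := by
      have h1 := hN j
      rw [Finset.sum_range_succ'] at h1
      rw [hu0, h1, add_div, Finset.sum_div, add_comm]
      congr 1
      · rw [pow_zero, p1]
        simp only [Nat.sub_zero, one_mul]
        rw [mul_div_assoc, div_self ej.ne', mul_one]
      · rw [Finset.sum_range_succ, Nat.sub_self]
        have h2 : yq e 0 = 0 := rfl
        rw [h2, mul_zero, mul_zero, add_zero]
        refine Finset.sum_congr rfl fun i hi => ?_
        rw [Finset.mem_range] at hi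
        obtain ⟨a, rfl⟩ : ∃ a, j = a + (i + 1) := ⟨j - (i + 1), by omega⟩
        rw [show a + (i + 1) - (i + 1) = a by omega, show a + (i + 1) - i = a + 1 by omega]
        have c1 := ep (a + 1) (by omega)
        change (-1 : ℝ) ^ (i + 1) * p (i + 1 + 1) * e a / e (a + (i + 1)) =
          (-1) ^ (i + 1) * p (i + 2) * (e (a + 1) / e (a + (i + 1)) * (e a / e (a + 1)))
        rw [show e (a + 1) / e (a + (i + 1)) * (e a / e (a + 1)) = e a / e (a + (i + 1)) by
          field_simp]
        rw [mul_div_assoc]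
    have hdiff : u1 - u0 = ∑ i ∈ Finset.range (j + 1), (-1) ^ (i + 1) * p (i + 2) *
        (e (j - i) / e j * (Y - yq e (j - i))) := by
      rw [a1, a0, add_sub_add_left_eq_sub, ← Finset.sum_sub_distrib]
      refine Finset.sum_congr rfl fun i _ => ?_
      have : e (j - i) / e (j + 1) = e (j - i) / e j * Y := by
        rw [hYe]
        field_simp
      rw [this]
      ring
    -- bounds
    have b1 : |u1 - lam| ≤ lam / 8 := by
      rw [a1, add_sub_cancel_left]
      calc |∑ i ∈ Finset.range (j + 1), (-1) ^ (i + 1) * p (i + 2) * (e (j - i) / e (j + 1))|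
          ≤ ∑ i ∈ Finset.range (j + 1), A * lam * T ^ 2 * ε * (T * ε) ^ i := by
            refine (Finset.abs_sum_le_sum_abs _ _).trans (Finset.sum_le_sum fun i hi => ?_)
            rw [Finset.mem_range] at hi
            obtain ⟨a, rfl⟩ : ∃ a, j = a + i := ⟨j - i, by omega⟩
            rw [show a + i - i = a by omega, abs_mul, abs_mul, abs_pow, abs_neg, abs_one, one_pow,
              one_mul]
            have c3 := prd (i + 1) a (by omega)
            rw [show a + (i + 1) = a + i + 1 by ring] at c3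
            have c4 : 0 ≤ e a / e (a + i + 1) := div_nonneg (ep a (by omega)).le ej1.le
            rw [abs_of_nonneg c4]
            calc |p (i + 2)| * (e a / e (a + i + 1)) ≤ (A * lam * T ^ (i + 2)) * ε ^ (i + 1) :=
                  mul_le_mul (hp (i + 1)) c3 c4 (by positivity)
              _ = A * lam * T ^ 2 * ε * (T * ε) ^ i := by
                  rw [mul_pow]
                  ring
        _ ≤ A * lam * T ^ 2 * ε * 2 := by
            rw [← Finset.mul_sum]
            exact mul_le_mul_of_nonneg_left (geo0 hTε0 hTε _) (by positivity)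
        _ = lam / 8 := by linear_combination (2 * lam) * hεA
    have b2 : |u1 - u0| ≤ 8 * (A * T ^ 2) := by
      rw [hdiff]
      calc |∑ i ∈ Finset.range (j + 1), (-1) ^ (i + 1) * p (i + 2) *
            (e (j - i) / e j * (Y - yq e (j - i)))|
          ≤ ∑ i ∈ Finset.range (j + 1), 2 * (A * T ^ 2) * (((i : ℝ) + 1) * (T * ε) ^ i) := by
            refine (Finset.abs_sum_le_sum_abs _ _).trans (Finset.sum_le_sum fun i hi => ?_)
            rw [Finset.mem_range] at hi
            obtain ⟨a, rfl⟩ : ∃ a, j = a + i := ⟨j - i, by omega⟩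
            rw [show a + i - i = a by omega, abs_mul, abs_mul, abs_pow, abs_neg, abs_one, one_pow,
              one_mul]
            obtain ⟨c1, c2⟩ := ydiff (i + 1) a (by omega)
            rw [show a + (i + 1) = a + i + 1 by ring, ← hY] at c1 c2
            have c3 := prd i a (by omega)
            have c4 : 0 ≤ e a / e (a + i) := div_nonneg (ep a (by omega)).le ej.le
            rw [abs_of_nonneg (mul_nonneg c4 c1)]
            have c5 : e a / e (a + i) * (Y - yq e a) ≤ ε ^ i * (((i + 1 : ℕ) : ℝ) * (2 / lam)) :=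
              mul_le_mul c3 c2 c1 (by positivity)
            calc |p (i + 2)| * (e a / e (a + i) * (Y - yq e a))
                ≤ (A * lam * T ^ (i + 2)) * (ε ^ i * (((i + 1 : ℕ) : ℝ) * (2 / lam))) :=
                  mul_le_mul (hp (i + 1)) c5 (mul_nonneg c4 c1) (by positivity)
              _ = 2 * (A * T ^ 2) * (((i : ℝ) + 1) * (T * ε) ^ i) := by
                  rw [mul_pow]
                  push_cast
                  field_simp
                  try ring
        _ ≤ 2 * (A * T ^ 2) * 4 := by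
            rw [← Finset.mul_sum]
            exact mul_le_mul_of_nonneg_left (geo1 hTε0 hTε _) (by positivity)
        _ = 8 * (A * T ^ 2) := by ring
    have b1' := abs_le.1 b1
    have hu1lo : 3 / 4 * lam ≤ u1 := by linarith
    have hu1pos : 0 < u1 := by linarith
    have ej2 : 0 < e (j + 2) := by
      have h1 : u1 * e (j + 1) = ((j : ℝ) + 2) * e (j + 2) := by
        rw [hu1]
        field_simp
      have h2 : 0 < ((j : ℝ) + 2) * e (j + 2) := by
        rw [← h1]
        positivity
      exact (pos_iff_pos_of_mul_pos h2).1 (by positivity)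
    have main : (yq e (j + 1 + 1) - Y) * u1 = 1 - Y * (u1 - u0) := by
      have m1 : yq e (j + 1 + 1) * u1 = (j : ℝ) + 2 := by
        change e (j + 1) / e (j + 2) * u1 = (j : ℝ) + 2
        rw [hu1]
        field_simp
      have m2 : Y * u0 = (j : ℝ) + 1 := by
        rw [hYe, hu0]
        field_simp
      rw [sub_mul, m1]
      linear_combination (-1 : ℝ) * m2
    obtain ⟨y0, y1⟩ := ysm (j + 1) le_rfl
    have n1 : |Y * (u1 - u0)| ≤ 1 / 2 := by
      rw [abs_mul, abs_of_nonneg y0]
      calc Y * |u1 - u0| ≤ ε * (8 * (A * T ^ 2)) := mul_le_mul y1 b2 (abs_nonneg _) hε0.le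
        _ = 1 / 2 := by linear_combination 8 * hεA
    have n1' := abs_le.1 n1
    have r1 : 0 < (yq e (j + 1 + 1) - Y) * u1 := by
      rw [main]
      linarith
    have r2 : 0 < yq e (j + 1 + 1) - Y := (pos_iff_pos_of_mul_pos r1).2 hu1pos
    refine ⟨ej1, ej2, ?_, ?_⟩
    · rw [div_le_iff₀ (by positivity)]
      have r4 : (yq e (j + 1 + 1) - Y) * u1 ≤ (yq e (j + 1 + 1) - Y) * (9 / 8 * lam) :=
        mul_le_mul_of_nonneg_left (by linarith) r2.le
      rw [main] at r4
      nlinarith
    rw [le_div_iff₀ hlam]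
    have r3 : (yq e (j + 1 + 1) - Y) * (3 / 4 * lam) ≤ (yq e (j + 1 + 1) - Y) * u1 :=
      mul_le_mul_of_nonneg_left hu1lo r2.le
    rw [main] at r3
    linarith

end

/-- **The far part.** -/
theorem ev_facts {b c T κ : ℝ} (h : Adm b c T κ) {L : ℕ} {P : ℝ[X]} (hP : Hyp b c T κ L P)
    (hV : ∀ r : ℝ, 0 < r → κ * L * wt r ≤ V P r) (hL : 1 ≤ L) {D : ℕ} (hD : (D : ℝ) ≤ del c κ * L) :
    0 < ev c κ P 1 ∧ κ / 8 * L ≤ ev c κ P 1 ∧ ∀ s ≤ D, 0 < ev c κ P s ∧ 0 < ev c κ P (s + 1) ∧
      1 / (4 * ev c κ P 1) ≤ yq (ev c κ P) (s + 1) - yq (ev c κ P) s ∧ yq (ev c κ P) (s + 1) - yq (ev c κ P) s ≤ 2 / ev c κ P 1 := by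
  have hκ := h.hκ
  have hc0 := c0_pos h
  have hc01 : c0 c κ ≤ 1 := (c0_le h).trans h.hc1
  have hL0 : (0 : ℝ) < L := by exact_mod_cast hL
  have hlam := ev_one h hP hV
  have hlam0 : 0 < ev c κ P 1 := lt_of_lt_of_le (by positivity) hlam
  refine ⟨hlam0, hlam, ?_⟩
  exact incr' (e := ev c κ P) (p := pv c κ P) (lam := ev c κ P 1) (A := 4 / κ) (T := (c0 c κ)⁻¹) hlam0
    (by rw [le_div_iff₀ hκ]; linarith [h.hκ1]) ((one_le_inv₀ hc0).2 hc01) (ev_zero c κ P) rfl
    (by
      intro m
      refine (pv_le h hP m).trans (mul_le_mul_of_nonneg_right ?_ (by positivity))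
      rw [div_mul_eq_mul_div, le_div_iff₀ hκ]
      nlinarith) (newton_ev c κ P) D (by
      have h1 : ((c0 c κ)⁻¹) ^ 2 = 1 / c0 c κ ^ 2 := by rw [inv_pow, one_div]
      rw [h1]
      calc 32 * (4 / κ) * (1 / c0 c κ ^ 2) * (D : ℝ) ≤ 32 * (4 / κ) * (1 / c0 c κ ^ 2) * (del c κ * L) := by gcongr
        _ = κ / 8 * L := by
          unfold del
          field_simp
          norm_num
        _ ≤ _ := hlam)

/-- the quotients are at most `2 s / λ` -/
theorem yq_le {e : ℕ → ℝ} {lam : ℝ} {D : ℕ} (hy : ∀ s ≤ D, yq e (s + 1) - yq e s ≤ 2 / lam) (h0 : yq e 0 = 0) :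
    ∀ s ≤ D + 1, yq e s ≤ s * (2 / lam) := by
  intro s
  induction s with
  | zero => intro _; rw [h0]; simp
  | succ s ih =>
    intro hs
    have h1 := ih (by omega)
    have h2 := hy s (by omega)
    push_cast
    linarith

/-- at most `λ / 2` steps: the coefficients do not decrease -/
theorem ev_ge_one {e : ℕ → ℝ} {lam : ℝ} (hlam : 0 < lam) {D : ℕ} (he0 : e 0 = 1) (hpos : ∀ s ≤ D, 0 < e s)
    (hy : ∀ s ≤ D, yq e (s + 1) - yq e s ≤ 2 / lam) : ∀ i ≤ D, 2 * (i : ℝ) ≤ lam → 1 ≤ e i := by
  have h0 : yq e 0 = 0 := rfl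
  intro i
  induction i with
  | zero => intro _ _; rw [he0]
  | succ i ih =>
    intro hi hil
    have h1 := ih (by omega) (by push_cast at hil; linarith)
    have h2 := yq_le hy h0 (i + 1) (by omega)
    have h3 : (((i + 1 : ℕ) : ℝ)) * (2 / lam) ≤ 1 := by
      rw [← mul_div_assoc, div_le_one hlam]
      linarith
    have h4 : e i / e (i + 1) ≤ 1 := h2.trans h3
    rw [div_le_one (hpos _ hi)] at h4
    linarith

end Pool.Agent.Helper85.E5
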