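import Pool.Agent.Helper85.E5.Inc
import Pool.Agent.Helper67.E5.ULMul
import Pool.Agent.Helper27.E5.Counts
import Pool.Agent.Helper27.E5.TrUL
import Pool.Agent.Helper67.E5.RatioBound

/-!
# E5: log-concavity at a small radius with a small variance
-/

set_option autoImplicit false

namespace Pool.Agent.Helper85.E5

open Polynomial EVC Pool.Agent.Helper74.EV4 Pool.Agent.Helper49.ZB Finset

/-- elementary symmetric functions of a multiset of complex numbers of modulus at most `R` -/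
theorem norm_esymm_le (s : Multiset ℂ) {R : ℝ} (hR : 0 ≤ R) (hs : ∀ a ∈ s, ‖a‖ ≤ R) (j : ℕ) :
    ‖s.esymm j‖ ≤ (1 + R) ^ Multiset.card s := by
  induction s using Multiset.induction_on generalizing j with
  | empty =>
    rcases j with _ | j
    · simp [Multiset.esymm]
    · have : (0 : Multiset ℂ).esymm (j + 1) = 0 := by
        unfold Multiset.esymm
        rw [Multiset.powersetCard_zero_right]
        simp
      rw [this]
      simp
  | cons a s ih =>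
    have ih' := ih (fun x hx => hs x (Multiset.mem_cons_of_mem hx))
    have ha := hs a (Multiset.mem_cons_self a s)
    rw [Multiset.card_cons, pow_succ]
    rcases j with _ | j
    · have h1 : (a ::ₘ s).esymm 0 = s.esymm 0 := by simp [Multiset.esymm]
      rw [h1]
      refine (ih' 0).trans ?_
      exact le_mul_of_one_le_right (by positivity) (by linarith)
    · have h1 : (a ::ₘ s).esymm (j + 1) = s.esymm (j + 1) + a * s.esymm j := by
        unfold Multiset.esymm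
        rw [Multiset.powersetCard_cons, Multiset.map_add, Multiset.sum_add, Multiset.map_map]
        congr 1
        rw [← Multiset.sum_map_mul_left]
        congr 1
        refine Multiset.map_congr rfl fun t _ => ?_
        simp
      rw [h1]
      refine (norm_add_le _ _).trans ?_
      rw [norm_mul]
      have h2 := ih' (j + 1)
      have h3 := ih' j
      have h4 : ‖a‖ * ‖s.esymm j‖ ≤ R * (1 + R) ^ Multiset.card s := mul_le_mul ha h3 (norm_nonneg _) hR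
      linarith

theorem abs_ev_le {b c T κ : ℝ} (h : Adm b c T κ) {L : ℕ} {P : ℝ[X]} (hP : Hyp b c T κ L P) (j : ℕ) :
    |ev c κ P j| ≤ (1 + (c0 c κ)⁻¹) ^ L := by
  have hc0 := c0_pos h
  unfold ev
  refine (Complex.abs_re_le_norm _).trans ?_
  refine (norm_esymm_le (fa c κ P) (R := (c0 c κ)⁻¹) (by positivity) (by
    intro t ht
    unfold fa at ht
    obtain ⟨ρ, hρ, rfl⟩ := Multiset.mem_map.1 ht
    rw [norm_neg, norm_inv]
    exact inv_anti₀ hc0 (mem_fr.1 hρ).2) j).trans ?_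
  apply pow_le_pow_right₀
  · have : 0 < (c0 c κ)⁻¹ := by positivity
    linarith
  · have h3 : Multiset.card (fa c κ P) ≤ Multiset.card (Z P) := by
      unfold fa
      rw [Multiset.card_map, ← nr_add_fr c κ P, Multiset.card_add]
      omega
    have h4 := card_Z_le hP.toNice
    have h5 : (Multiset.card (fa c κ P) : ℝ) ≤ Multiset.card (Z P) := by exact_mod_cast h3
    have h6 : (0 : ℝ) ≤ L := Nat.cast_nonneg L
    have h7 : (Multiset.card (fa c κ P) : ℝ) ≤ L := by linarith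
    exact_mod_cast h7

/-- the coefficients of the main part -/
theorem main_coeff (c κ : ℝ) (P : ℝ[X]) (D n : ℕ) : (lp (na c κ P) * tr (ev c κ P) D).coeff n =
    ∑ j ∈ range (n + 1), (lp (na c κ P)).coeff (n - j) * (if j ≤ D then ev c κ P j else 0) := by
  rw [Polynomial.coeff_mul, Finset.Nat.sum_antidiagonal_eq_sum_range_succ_mk, ← Finset.sum_range_reflect]
  refine Finset.sum_congr rfl fun j hj => ?_
  rw [Finset.mem_range] at hj
  rw [tr_coeff, show n + 1 - 1 - j = n - j by omega, show n - (n - j) = j by omega]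

/-- **The comparison** of the coefficients with the main part. -/
theorem compare {u e : ℕ → ℝ} (hu : ∀ m, 0 ≤ u m) {g E ε : ℝ} (hg : 0 ≤ g) (hg2 : g ≤ 1 / 2) {D m₀ i₀ w : ℕ}
    (hr : ∀ m, 1 ≤ m → m ≤ m₀ → u (m - 1) ≤ g * u m) (hE : ∀ j, |e j| ≤ E) (hpos : ∀ j ≤ D, 0 ≤ e j) (hi : i₀ ≤ D) (h1 : 1 ≤ e i₀)
    (hw : i₀ + w ≤ D + 1) (hε : 2 * E * g ^ w ≤ ε) :
    |∑ j ∈ range (m₀ + i₀ + 1), u (m₀ + i₀ - j) * e j - ∑ j ∈ range (m₀ + i₀ + 1), u (m₀ + i₀ - j) * (if j ≤ D then e j else 0)| ≤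
      ε * ∑ j ∈ range (m₀ + i₀ + 1), u (m₀ + i₀ - j) * (if j ≤ D then e j else 0) := by
  have hE0 : 0 ≤ E := (abs_nonneg _).trans (hE 0)
  have hE2 : 0 ≤ 2 * E * g ^ w := by positivity
  -- ratio chain
  have chain : ∀ d, d ≤ m₀ → u (m₀ - d) ≤ g ^ d * u m₀ := by
    intro d
    induction d with
    | zero => intro _; simp
    | succ d ih =>
      intro hd
      have a1 := ih (by omega)
      have a2 := hr (m₀ - d) (by omega) (by omega)
      rw [show m₀ - d - 1 = m₀ - (d + 1) by omega] at a2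
      refine a2.trans ?_
      rw [pow_succ', mul_assoc]
      exact mul_le_mul_of_nonneg_left a1 hg
  -- the main part
  have hmain : u m₀ ≤ ∑ j ∈ range (m₀ + i₀ + 1), u (m₀ + i₀ - j) * (if j ≤ D then e j else 0) := by
    have a1 : u (m₀ + i₀ - i₀) * (if i₀ ≤ D then e i₀ else 0) ≤
        ∑ j ∈ range (m₀ + i₀ + 1), u (m₀ + i₀ - j) * (if j ≤ D then e j else 0) := by
      refine Finset.single_le_sum (f := fun j => u (m₀ + i₀ - j) * (if j ≤ D then e j else 0)) (fun j _ => ?_)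
        (Finset.mem_range.2 (by omega))
      refine mul_nonneg (hu _) ?_
      split_ifs with hj
      · exact hpos j hj
      · exact le_rfl
    rw [if_pos hi, Nat.add_sub_cancel] at a1
    refine le_trans ?_ a1
    exact le_mul_of_one_le_right (hu _) h1
  -- the rest
  have hrest : |∑ j ∈ range (m₀ + i₀ + 1), u (m₀ + i₀ - j) * e j - ∑ j ∈ range (m₀ + i₀ + 1), u (m₀ + i₀ - j) * (if j ≤ D then e j else 0)| ≤
      2 * E * g ^ w * u m₀ := by
    rw [← Finset.sum_sub_distrib]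
    have a1 : ∀ j ∈ range (m₀ + i₀ + 1), |u (m₀ + i₀ - j) * e j - u (m₀ + i₀ - j) * (if j ≤ D then e j else 0)| ≤
        if D + 1 ≤ j then E * g ^ w * u m₀ * g ^ (j - (D + 1)) else 0 := by
      intro j hj
      rw [Finset.mem_range] at hj
      by_cases hjD : j ≤ D
      · rw [if_pos hjD, sub_self, abs_zero, if_neg (by omega)]
      · rw [if_neg hjD, mul_zero, sub_zero, if_pos (by omega), abs_mul, abs_of_nonneg (hu _)]
        have a2 := chain (j - i₀) (by omega)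
        rw [show m₀ - (j - i₀) = m₀ + i₀ - j by omega] at a2
        have a3 : g ^ (j - i₀) ≤ g ^ w * g ^ (j - (D + 1)) := by
          rw [← pow_add]
          exact pow_le_pow_of_le_one hg (by linarith) (by omega)
        calc u (m₀ + i₀ - j) * |e j| ≤ (g ^ (j - i₀) * u m₀) * E :=
              mul_le_mul a2 (hE j) (abs_nonneg _) (mul_nonneg (by positivity) (hu _))
          _ ≤ (g ^ w * g ^ (j - (D + 1)) * u m₀) * E := by
              refine mul_le_mul_of_nonneg_right (mul_le_mul_of_nonneg_right a3 (hu _)) hE0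
          _ = _ := by ring
    refine (Finset.abs_sum_le_sum_abs _ _).trans ((Finset.sum_le_sum a1).trans ?_)
    rw [← Finset.sum_filter]
    have a4 : ∑ j ∈ (range (m₀ + i₀ + 1)).filter (fun j => D + 1 ≤ j), E * g ^ w * u m₀ * g ^ (j - (D + 1)) ≤
        E * g ^ w * u m₀ * 2 := by
      rw [← Finset.mul_sum]
      refine mul_le_mul_of_nonneg_left ?_ (mul_nonneg (by positivity) (hu _))
      have a5 : ∑ j ∈ (range (m₀ + i₀ + 1)).filter (fun j => D + 1 ≤ j), g ^ (j - (D + 1)) ≤ ∑ i ∈ range (m₀ + i₀ + 1), g ^ i := by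
        have a6 : (∑ j ∈ (range (m₀ + i₀ + 1)).filter (fun j => D + 1 ≤ j), g ^ (j - (D + 1))) =
            ∑ i ∈ ((range (m₀ + i₀ + 1)).filter (fun j => D + 1 ≤ j)).image (fun j => j - (D + 1)), g ^ i := by
          rw [Finset.sum_image]
          intro x hx y hy hxy
          simp only [Finset.coe_filter, Set.mem_ofPred_eq] at hx hy
          simp only at hxy
          omega
        rw [a6]
        refine Finset.sum_le_sum_of_subset_of_nonneg ?_ fun i _ _ => by positivity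
        intro i hi
        obtain ⟨j, hj, rfl⟩ := Finset.mem_image.1 hi
        rw [Finset.mem_filter, Finset.mem_range] at hj
        rw [Finset.mem_range]
        omega
      exact a5.trans (Pool.Agent.Helper74.EV2.geo0 hg hg2 _)
    refine a4.trans (le_of_eq (by ring))
  refine hrest.trans ?_
  calc 2 * E * g ^ w * u m₀ ≤ 2 * E * g ^ w * ∑ j ∈ range (m₀ + i₀ + 1), u (m₀ + i₀ - j) * (if j ≤ D then e j else 0) :=
        mul_le_mul_of_nonneg_left hmain hE2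
    _ ≤ _ := mul_le_mul_of_nonneg_right hε ((hu _).trans hmain)

/-- elementary: the constants of the comparison -/
theorem const_bound {E C δ : ℝ} (hE : 1 ≤ E) (hδ : 0 < δ) (h : ℕ) : ∃ L₀ : ℕ, 1 ≤ L₀ ∧ ∀ L : ℕ, L₀ ≤ L →
    ∀ (D : ℕ) (g : ℝ), δ * L < D + 1 → 0 ≤ g → g ≤ Real.exp 1 * (C / L) →
      2 * h ≤ D ∧ g ≤ 1 / 2 ∧ 2 * E ^ L * g ^ (D + 1 - 2 * h) ≤ 1 / (544 * L) := by
  obtain ⟨N1, hN1⟩ := exists_nat_ge (4 / δ)
  obtain ⟨θ, hθ⟩ : ∃ θ : ℝ, θ = (1 / (4 * E)) ^ N1 := ⟨_, rfl⟩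
  have hθ0 : 0 < θ := by rw [hθ]; positivity
  have h4E : 1 / (4 * E) ≤ 1 := by
    rw [div_le_one (by positivity)]
    linarith
  obtain ⟨L1, hL1⟩ := exists_nat_ge (Real.exp 1 * C / min θ (1 / 2))
  obtain ⟨L2, hL2⟩ := exists_nat_ge ((4 * h + 1) / δ * 2)
  refine ⟨max (max L1 L2) 12, le_max_of_le_right (by norm_num), fun L hL D g hD hg hgC => ?_⟩
  have hLa : (L1 : ℝ) ≤ L := by exact_mod_cast (le_max_left _ _).trans ((le_max_left _ _).trans hL)
  have hLb : (L2 : ℝ) ≤ L := by exact_mod_cast (le_max_right _ _).trans ((le_max_left _ _).trans hL)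
  have hLc : 12 ≤ L := (le_max_right _ _).trans hL
  have hL0 : (0 : ℝ) < L := by
    have : 0 < L := by omega
    exact_mod_cast this
  have hgm : g ≤ min θ (1 / 2) := by
    have h1 : Real.exp 1 * C / min θ (1 / 2) ≤ L := hL1.trans hLa
    have hm : 0 < min θ (1 / 2) := lt_min hθ0 (by norm_num)
    rw [div_le_iff₀ hm] at h1
    refine hgC.trans ?_
    rw [← mul_div_assoc, div_le_iff₀ hL0]
    linarith
  have hgθ : g ≤ θ := hgm.trans (min_le_left _ _)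
  have hL3 : (4 * h + 1) * 2 ≤ δ * L := by
    have h1 : (4 * (h : ℝ) + 1) / δ * 2 ≤ L := hL2.trans hLb
    rw [div_mul_eq_mul_div, div_le_iff₀ hδ] at h1
    linarith
  have hh0 : (0 : ℝ) ≤ h := Nat.cast_nonneg h
  have hD1 : 2 * h ≤ D := by
    have h1 : (2 * h : ℝ) ≤ D := by linarith
    exact_mod_cast h1
  refine ⟨hD1, hgm.trans (min_le_right _ _), ?_⟩
  obtain ⟨w, hw⟩ : ∃ w, w = D + 1 - 2 * h := ⟨_, rfl⟩
  have hw' : (w : ℝ) = D + 1 - 2 * h := by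
    rw [hw, Nat.cast_sub (by omega)]
    push_cast
    ring
  rw [← hw]
  have hwL : L ≤ N1 * w := by
    have h1 : (L : ℝ) ≤ N1 * w := by
      have h2 : δ * L / 4 ≤ w := by rw [hw']; linarith
      have h3 : (L : ℝ) ≤ 4 / δ * w := by
        rw [div_mul_eq_mul_div, le_div_iff₀ hδ]
        linarith
      exact h3.trans (mul_le_mul_of_nonneg_right hN1 (Nat.cast_nonneg w))
    exact_mod_cast h1
  have h5 : g ^ w ≤ (1 / (4 * E)) ^ L := by
    calc g ^ w ≤ θ ^ w := pow_le_pow_left₀ hg hgθ w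
      _ = (1 / (4 * E)) ^ (N1 * w) := by rw [hθ, ← pow_mul]
      _ ≤ (1 / (4 * E)) ^ L := pow_le_pow_of_le_one (by positivity) h4E hwL
  have h6 : 2 * E ^ L * g ^ w ≤ 2 * (1 / 4) ^ L := by
    calc 2 * E ^ L * g ^ w ≤ 2 * E ^ L * (1 / (4 * E)) ^ L := mul_le_mul_of_nonneg_left h5 (by positivity)
      _ = 2 * (E * (1 / (4 * E))) ^ L := by rw [mul_pow]; ring
      _ = 2 * (1 / 4) ^ L := by
        congr 2
        field_simp
  refine h6.trans ?_
  have h7 : (1 / 4 : ℝ) ^ L = 1 / (2 ^ L * 2 ^ L) := by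
    rw [← mul_pow, one_div_pow]
    norm_num
  rw [h7, mul_one_div, div_le_div_iff₀ (by positivity) (by positivity)]
  have h8 : (L : ℝ) ≤ 2 ^ L := by exact_mod_cast Nat.lt_two_pow_self.le
  have h9 : (1088 : ℝ) ≤ 2 ^ L := by
    calc (1088 : ℝ) ≤ 2 ^ 12 := by norm_num
      _ ≤ 2 ^ L := pow_le_pow_right₀ (by norm_num) hLc
  nlinarith [mul_le_mul h9 h8 hL0.le (by positivity)]

/-- elementary: the last step -/
theorem last_step {x ε s0 s1 s2 β0 β1 β2 : ℝ} (hx0 : 0 < x) (hε0 : 0 < ε) (hε1 : ε ≤ 1 / 16) (hεx : 4 * ε * x ≤ 1 / 4)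
    (p0 : 0 ≤ β0) (p1 : 0 ≤ β1) (p2 : 0 ≤ β2) (c0' : |s0 - β0| ≤ ε * β0) (c1' : |s1 - β1| ≤ ε * β1) (c2' : |s2 - β2| ≤ ε * β2)
    (hgap : (x + 1) * (β0 * β2) ≤ x * β1 ^ 2) : s0 * s2 ≤ s1 ^ 2 := by
  have d0 := abs_le.1 c0'
  have d1 := abs_le.1 c1'
  have d2 := abs_le.1 c2'
  have q0 : ε * β0 ≤ 1 / 16 * β0 := mul_le_mul_of_nonneg_right hε1 p0
  have q1 : ε * β1 ≤ 1 / 16 * β1 := mul_le_mul_of_nonneg_right hε1 p1
  have q2 : ε * β2 ≤ 1 / 16 * β2 := mul_le_mul_of_nonneg_right hε1 p2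
  have f0 : s0 ≤ (1 + ε) * β0 := by linarith [d0.2]
  have f2 : s2 ≤ (1 + ε) * β2 := by linarith [d2.2]
  have f2' : 0 ≤ s2 := by linarith [d2.1]
  have f1 : (1 - ε) * β1 ≤ s1 := by linarith [d1.1]
  have f1' : 0 ≤ (1 - ε) * β1 := mul_nonneg (by linarith) p1
  have g1 : s0 * s2 ≤ (1 + ε) ^ 2 * (β0 * β2) := by
    calc s0 * s2 ≤ ((1 + ε) * β0) * ((1 + ε) * β2) := mul_le_mul f0 f2 f2' (mul_nonneg (by linarith) p0)
      _ = _ := by ring
  have g2 : (1 - ε) ^ 2 * β1 ^ 2 ≤ s1 ^ 2 := by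
    rw [← mul_pow]
    exact pow_le_pow_left₀ f1' f1 2
  have h2 : (1 + ε) ^ 2 * x ≤ (1 - ε) ^ 2 * (x + 1) := by
    have h3 : (15 / 16) ^ 2 ≤ (1 - ε) ^ 2 := pow_le_pow_left₀ (by norm_num) (by linarith) 2
    have h5 : (1 + ε) ^ 2 * x = (1 - ε) ^ 2 * x + 4 * ε * x := by ring
    rw [h5, mul_add, mul_one]
    have h6 : (1 / 4 : ℝ) ≤ (15 / 16) ^ 2 := by norm_num
    linarith
  have g3 : (1 + ε) ^ 2 * (β0 * β2) ≤ (1 - ε) ^ 2 * β1 ^ 2 := by
    have h4 : (x + 1) * ((1 + ε) ^ 2 * (β0 * β2)) ≤ (x + 1) * ((1 - ε) ^ 2 * β1 ^ 2) := by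
      calc (x + 1) * ((1 + ε) ^ 2 * (β0 * β2)) = (1 + ε) ^ 2 * ((x + 1) * (β0 * β2)) := by ring
        _ ≤ (1 + ε) ^ 2 * (x * β1 ^ 2) := mul_le_mul_of_nonneg_left hgap (by positivity)
        _ = ((1 + ε) ^ 2 * x) * β1 ^ 2 := by ring
        _ ≤ ((1 - ε) ^ 2 * (x + 1)) * β1 ^ 2 := mul_le_mul_of_nonneg_right h2 (by positivity)
        _ = _ := by ring
    exact le_of_mul_le_mul_left h4 (by linarith)
  exact g1.trans (g3.trans g2)

open Classical in
/-- **Small radius, small variance.** -/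
theorem mid_low {b c T κ : ℝ} (h : Adm b c T κ) {V0 : ℝ} (hV0 : 0 < V0) : ∃ L₀ : ℕ, ∀ L : ℕ, L₀ ≤ L → ∀ P : ℝ[X], Hyp b c T κ L P →
    (∀ r : ℝ, 0 < r → κ * L * wt r ≤ V P r) → ∀ r : ℝ, 0 < r → 2 * r ≤ c0 c κ → V P r ≤ V0 → ∀ k : ℕ, 1 ≤ k → mean P r = k →
      del c κ * L < k + 1 → P.coeff (k - 1) * P.coeff (k + 1) ≤ P.coeff k ^ 2 := by
  have hκ := h.hκ
  have hc0 := c0_pos h
  have hc01 : c0 c κ ≤ 1 := (c0_le h).trans h.hc1
  have hδ := del_pos h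
  obtain ⟨C, hC⟩ : ∃ C, C = 4 * V0 / κ := ⟨_, rfl⟩
  have hC0 : 0 < C := by rw [hC]; positivity
  obtain ⟨C4, hC4⟩ : ∃ C4, C4 = 4 * (V0 + 2 * C / c0 c κ) := ⟨_, rfl⟩
  obtain ⟨C5, hC5⟩ : ∃ C5, C5 = 2 * (V0 + 2 * C / c0 c κ) + C / c0 c κ := ⟨_, rfl⟩
  have hC40 : 0 < C4 := by rw [hC4]; positivity
  have hC50 : 0 < C5 := by rw [hC5]; positivity
  obtain ⟨hh, hhh⟩ := exists_nat_ge (C4 + C5 + 2)
  obtain ⟨L1, hL11, hL1⟩ := const_bound (E := 1 + (c0 c κ)⁻¹) (C := C) (δ := del c κ)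
    (by have : 0 < (c0 c κ)⁻¹ := by positivity
        linarith) hδ hh
  obtain ⟨L2, hL2⟩ := exists_nat_ge (32 * (hh : ℝ) / κ + 1)
  refine ⟨max L1 L2, fun L hL P hP hV r hr hrc hVr k hk hmean hkδ => ?_⟩
  have hLa : L1 ≤ L := (le_max_left _ _).trans hL
  have hLb : (L2 : ℝ) ≤ L := by exact_mod_cast (le_max_right _ _).trans hL
  have hL1' : 1 ≤ L := hL11.trans hLa
  have hL0 : (0 : ℝ) < L := by exact_mod_cast hL1'
  by_cases hkdeg : P.natDegree < k + 1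
  · rw [coeff_eq_zero_of_natDegree_lt hkdeg, mul_zero]
    positivity
  push Not at hkdeg
  -- `r L ≤ C`
  have hrL : r * L ≤ C := by
    have h1 := (hV r hr).trans hVr
    have h2 : r / 4 ≤ wt r := by
      unfold wt
      rw [div_le_div_iff₀ (by norm_num) (by positivity)]
      have : (1 + r) ^ 2 ≤ 4 := by nlinarith
      nlinarith
    have h3 : κ * L * (r / 4) ≤ V0 := (mul_le_mul_of_nonneg_left h2 (by positivity)).trans h1
    rw [hC, le_div_iff₀ hκ]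
    linarith
  obtain ⟨hs, hq⟩ := Pool.Agent.Helper27.E5.counts h hP hr hrc hrL hVr
  rw [← hC4] at hs
  rw [← hC5, hmean] at hq
  obtain ⟨q, hqd⟩ : ∃ q, q = Multiset.card ((na c κ P).filter fun v => 1 ≤ v * r) := ⟨_, rfl⟩
  rw [← hqd] at hq
  have hq' := abs_le.1 hq
  -- `D`
  obtain ⟨D, hD⟩ : ∃ D, D = ⌊del c κ * L⌋₊ := ⟨_, rfl⟩
  have hD1 : (D : ℝ) ≤ del c κ * L := by rw [hD]; exact Nat.floor_le (by positivity)
  have hD2 : del c κ * L < D + 1 := by rw [hD]; exact Nat.lt_floor_add_one _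
  obtain ⟨g, hg⟩ : ∃ g, g = Real.exp 1 * r := ⟨_, rfl⟩
  have hg0 : 0 ≤ g := by rw [hg]; positivity
  have hgC : g ≤ Real.exp 1 * (C / L) := by
    rw [hg]
    refine mul_le_mul_of_nonneg_left ?_ (Real.exp_pos 1).le
    rw [le_div_iff₀ hL0]
    exact hrL
  obtain ⟨hDh, hg2, hε⟩ := hL1 L hLa D g hD2 hg0 hgC
  -- the far part
  obtain ⟨hlam0, hlam, hev⟩ := ev_facts h hP hV hL1' hD1
  have hnapos : ∀ v ∈ na c κ P, 0 < v := by
    intro v hv
    unfold na at hv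
    obtain ⟨ρ, hρ, rfl⟩ := Multiset.mem_map.1 hv
    have h1 := Z_ne_zero hP.toNice (mem_nr.1 hρ).1
    have : 0 < ‖ρ‖ := norm_pos_iff.2 h1
    positivity
  have hratio := Pool.Agent.Helper67.E5.ratio_bound hnapos hr (h := hh) (by
    have h1 : (1 : ℝ) ≤ hh := by linarith
    exact_mod_cast h1) (hs.trans (by linarith))
  rw [← hqd] at hratio
  -- `k + 1 ≥ D`, `q ≥ h`
  have hkD : (D : ℝ) < k + 1 := lt_of_le_of_lt hD1 hkδ
  have hqh : hh + 1 ≤ q := by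
    have h1 : (2 * hh : ℝ) ≤ D := by exact_mod_cast hDh
    have h2 : (hh : ℝ) + 1 ≤ q := by linarith [hq'.2]
    exact_mod_cast h2
  obtain ⟨u, hu⟩ : ∃ u : ℕ → ℝ, u = fun m => (lp (na c κ P)).coeff m := ⟨_, rfl⟩
  obtain ⟨e, he⟩ : ∃ e : ℕ → ℝ, e = ev c κ P := ⟨_, rfl⟩
  have hunn : ∀ m, 0 ≤ u m := by
    intro m
    rw [hu]
    simp only
    rw [lp_coeff]
    exact Pool.Agent.Helper49.EV.esymm_nonneg _ hnapos m
  obtain ⟨bb, hbb⟩ : ∃ bb : ℝ[X], bb = lp (na c κ P) * tr (ev c κ P) D := ⟨_, rfl⟩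
  have hbco : ∀ n, bb.coeff n = ∑ j ∈ range (n + 1), u (n - j) * (if j ≤ D then e j else 0) := by
    intro n
    rw [hbb, main_coeff, hu, he]
  have hPco : ∀ n, P.coeff n = P.coeff 0 * ∑ j ∈ range (n + 1), u (n - j) * e j := by
    intro n
    rw [coeff_conv h hP n, hu, he]
    simp only [lp_coeff]
  -- the comparison
  obtain ⟨ε, hεd⟩ : ∃ ε : ℝ, ε = 1 / (544 * L) := ⟨_, rfl⟩
  have hpos : ∀ j ≤ D, 0 < e j := fun j hj => by rw [he]; exact (hev j hj).1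
  have hone : ∀ i, i ≤ 2 * hh → 1 ≤ e i := by
    intro i hi
    rw [he]
    refine ev_ge_one hlam0 (D := D) (ev_zero c κ P) (fun s hs => (hev s hs).1) (fun s hs => (hev s hs).2.2.2) i (by omega) ?_
    refine le_trans ?_ hlam
    have h1 : 32 * (hh : ℝ) / κ + 1 ≤ L := hL2.trans hLb
    have h2 : 32 * (hh : ℝ) / κ ≤ L := by linarith
    rw [div_le_iff₀ hκ] at h2
    have h3 : (i : ℝ) ≤ 2 * hh := by exact_mod_cast hi
    linarith
  have hcmp : ∀ n, k ≤ n + 1 → n ≤ k + 1 → |(∑ j ∈ range (n + 1), u (n - j) * e j) - bb.coeff n| ≤ ε * bb.coeff n := by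
    intro n hn1 hn2
    have hn1' : (k : ℝ) ≤ n + 1 := by exact_mod_cast hn1
    have hn2' : (n : ℝ) ≤ k + 1 := by exact_mod_cast hn2
    have a1 : q ≤ n + hh := by
      have : (q : ℝ) ≤ n + hh := by linarith [hq'.1]
      exact_mod_cast this
    have a2 : n + hh ≤ q + 2 * hh := by
      have : (n : ℝ) + hh ≤ q + 2 * hh := by linarith [hq'.2]
      exact_mod_cast this
    obtain ⟨i₀, hi₀⟩ : ∃ i₀, i₀ = n + hh - q := ⟨_, rfl⟩
    obtain ⟨m₀, hm₀⟩ : ∃ m₀, m₀ = q - hh := ⟨_, rfl⟩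
    have a3 : n = m₀ + i₀ := by omega
    have a4 : i₀ ≤ 2 * hh := by omega
    have h1 := compare (u := u) (e := e) hunn (g := g) (E := (1 + (c0 c κ)⁻¹) ^ L) (ε := ε) hg0 hg2 (D := D) (m₀ := m₀) (i₀ := i₀)
      (w := D + 1 - 2 * hh) (fun m hm1 hm2 => by
        rw [hu, hg]
        exact hratio m hm1 (by omega)) (fun j => by rw [he]; exact abs_ev_le h hP j) (fun j hj => (hpos j hj).le) (by omega)
      (hone i₀ a4) (by omega) (by rw [hεd]; exact hε)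
    rw [← a3] at h1
    rw [hbco]
    exact h1
  -- the weighted log-concavity
  obtain ⟨A, hA⟩ : ∃ A : ℝ, A = 8 * ((D : ℝ) + 1) := ⟨_, rfl⟩
  have hA0 : 0 ≤ A := by rw [hA]; positivity
  have hUL : UL A (cz bb) := by
    rw [hbb]
    refine Pool.Agent.Helper67.E5.UL_mul_lp hA0 (Pool.Agent.Helper27.E5.tr_UL hlam0 (by rw [hA]) (fun j hj => (hev j hj).1) fun s hs => ?_) (na_nonneg c κ P)
    exact ⟨(hev s (by omega)).2.2.1, (hev s (by omega)).2.2.2⟩
  have hgap := hUL.2.2 (k : ℤ) (k : ℤ) le_rfl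
  have e1 : ((k : ℕ) : ℤ) - 1 = ((k - 1 : ℕ) : ℤ) := by omega
  have e2 : ((k : ℕ) : ℤ) + 1 = ((k + 1 : ℕ) : ℤ) := by push_cast; ring
  rw [e1, e2, cz_nat, cz_nat, cz_nat] at hgap
  push_cast at hgap
  have hb0 : ∀ n, 0 ≤ bb.coeff n := by
    intro n
    have := hUL.1 (n : ℤ)
    rwa [cz_nat] at this
  obtain ⟨x, hx⟩ : ∃ x : ℝ, x = k + A := ⟨_, rfl⟩
  have hx0 : 0 < x := by
    rw [hx, hA]
    positivity
  have hxL : x ≤ 34 * L := by
    have h1 : (k : ℝ) + 1 ≤ P.natDegree := by exact_mod_cast hkdeg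
    have h2 : 2 * (P.natDegree : ℝ) ≤ L := by exact_mod_cast hP.deg
    have h3 : (D : ℝ) ≤ k + 1 := hkD.le
    rw [hx, hA]
    have h4 : (1 : ℝ) ≤ L := by exact_mod_cast hL1'
    linarith
  have c0' := hcmp (k - 1) (by omega) (by omega)
  have c1' := hcmp k (by omega) (by omega)
  have c2' := hcmp (k + 1) (by omega) (by omega)
  obtain ⟨s0, hs0⟩ : ∃ s, s = ∑ j ∈ range (k - 1 + 1), u (k - 1 - j) * e j := ⟨_, rfl⟩
  obtain ⟨s1, hs1⟩ : ∃ s, s = ∑ j ∈ range (k + 1), u (k - j) * e j := ⟨_, rfl⟩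
  obtain ⟨s2, hs2⟩ : ∃ s, s = ∑ j ∈ range (k + 1 + 1), u (k + 1 - j) * e j := ⟨_, rfl⟩
  rw [hPco (k - 1), hPco k, hPco (k + 1), ← hs0, ← hs1, ← hs2]
  rw [← hs0] at c0'
  rw [← hs1] at c1'
  rw [← hs2] at c2'
  obtain ⟨β0, hβ0⟩ : ∃ β, β = bb.coeff (k - 1) := ⟨_, rfl⟩
  obtain ⟨β1, hβ1⟩ : ∃ β, β = bb.coeff k := ⟨_, rfl⟩
  obtain ⟨β2, hβ2⟩ : ∃ β, β = bb.coeff (k + 1) := ⟨_, rfl⟩
  have p0 := hb0 (k - 1)
  have p1 := hb0 k
  have p2 := hb0 (k + 1)
  rw [← hβ0] at c0' p0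
  rw [← hβ1] at c1' p1
  rw [← hβ2] at c2' p2
  rw [← hβ0, ← hβ1, ← hβ2] at hgap
  have hε0 : 0 < ε := by rw [hεd]; positivity
  have hεx : 4 * ε * x ≤ 1 / 4 := by
    have h1 : ε * L = 1 / 544 := by
      rw [hεd]
      field_simp
    calc 4 * ε * x ≤ 4 * ε * (34 * L) := mul_le_mul_of_nonneg_left hxL (by positivity)
      _ = 136 * (ε * L) := by ring
      _ ≤ 1 / 4 := by rw [h1]; norm_num
  have hε1 : ε ≤ 1 / 16 := by
    rw [hεd, div_le_div_iff₀ (by positivity) (by norm_num)]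
    have h4 : (1 : ℝ) ≤ L := by exact_mod_cast hL1'
    linarith
  have hgap' : (x + 1) * (β0 * β2) ≤ x * β1 ^ 2 := by
    have h1 : ((k : ℝ) + 1 + A) * (β0 * β2) ≤ ((k : ℝ) + A) * (β1 * β1) := hgap
    rw [hx, sq]
    calc ((k : ℝ) + A + 1) * (β0 * β2) = ((k : ℝ) + 1 + A) * (β0 * β2) := by ring
      _ ≤ _ := h1
  have g4 : s0 * s2 ≤ s1 ^ 2 := last_step hx0 hε0 hε1 hεx p0 p1 p2 c0' c1' c2' hgap'
  have g5 := mul_le_mul_of_nonneg_left g4 (sq_nonneg (P.coeff 0))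
  calc P.coeff 0 * s0 * (P.coeff 0 * s2) = P.coeff 0 ^ 2 * (s0 * s2) := by ring
    _ ≤ P.coeff 0 ^ 2 * s1 ^ 2 := g5
    _ = (P.coeff 0 * s1) ^ 2 := by ring

end Pool.Agent.Helper85.E5
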