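import Pool.Agent.Helper85.E5.UL

/-!
# E5: the leaves are in `Helper67/E5/ULMul.lean`, `Helper27/E5/TrUL.lean`, `Helper67/E5/RatioBound.lean`, `Helper27/E5/Counts.lean`
-/
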