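import Pool.Agent.Helper85.E5.Low3

/-!
# E5: weighted log-concavity
-/

set_option autoImplicit false

namespace Pool.Agent.Helper85.E5

/-- `(n + A)`-weighted log-concavity of a sequence supported on the natural numbers -/
def UL (A : ℝ) (a : ℤ → ℝ) : Prop :=
  (∀ n, 0 ≤ a n) ∧ (∀ n, n < 0 → a n = 0) ∧ ∀ i j : ℤ, i ≤ j → ((j : ℝ) + 1 + A) * (a (i - 1) * a (j + 1)) ≤ ((i : ℝ) + A) * (a i * a j)

end Pool.Agent.Helper85.E5
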